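import Pool.Agent.H92.D2.Ceg
import Pool.Agent.H31.W.H23.D2.Bln
import Pool.Agent.H31.W.H3.D2G.RecG
import Pool.Agent.H3.W.Bas

/-!
# The record of the end from the record of a window

`RecG.recE`: the record `RecE` from `RecG`, for a target over coordinates of slope one. `RecG.raw`:
the rows which are not full.
-/

set_option autoImplicit false

namespace Pool.W.PKG

open Pool.PKG

open Finset Real
open Pool.Agent.H49.Ent Pool.Agent.H32.Dense Pool.STK Pool.KA Pool.KSAT Pool.K2S Pool.PB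
open Pool.GEN Pool.S6C Pool.STAT Pool.CHT Pool.GRW Pool.ONE Pool.STA
open Pool.LBT (LSys ThrOf)
open Pool.LEV (Law)
open Pool.ALL (RateOf)
open Pool.ISO (PtD lvN WinD)
open Pool.V1E (RecE vE)
open Pool.OWN68 (RawN rawN_of)
open Pool.D2R (BalD)

section

variable {m : ℕ} {S : Pool.PB.PCl m} {al : ℝ} {g₀ : ℝ → ℝ} {P : List (Fin m) × Fin m → ℝ → ℝ → ℝ}
  {θ : ℝ} {P₂ : ℕ → List (Fin m) × Fin m → ℝ → ℝ → ℝ} {θ₂ Eb e₂ : ℕ → ℝ}
  {c : ℕ → Fin m} {Pt : ℝ → ℝ → ℝ} {r : ℝ → ℝ} {h K₀ g : ℝ} {L T : ℕ → ℝ → ℝ → ℝ}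
  {Sl : ℕ → ℝ} {κ : ℕ → Pool.PKG.Kg} {G : Set ℝ} {S₀ N : ℕ} {A V : ℕ → ℝ} {S₂ N' : ℕ} {V' : ℕ → ℝ}
  {K ε q t : ℝ}
  (R : Pool.W.PKG.RecG S al g₀ P θ P₂ θ₂ Eb e₂ c Pt r h K₀ g L T Sl κ G S₀ N A V S₂ N' V' K ε q t)
include R


/-- **The rows which are not full.** -/
theorem RecG.raw (hm : 2 ≤ m) (hε : 0 < ε) {x y : ℝ} (hx0 : 0 ≤ x) (hy : 0 ≤ y)
    (hxK : x ≤ K * q) (hyK : y ≤ K * q) (hxL : x ≤ L (m - 1) t t) :
    Pool.OWN68.RawN S ((range (m - 1)).image c) (c (m - 1)) (L (m - 1) t t - x) y h (2 * ε * q) := by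
  have W := R.tg (m - 1) (by omega) (by omega)
  have hq := R.q0
  have hK0 : 0 ≤ K * q := hx0.trans hxK
  have hroom := W.room (m - 1) le_rfl t (by rw [sub_self, abs_zero]; exact hK0)
  have hEb := W.Eb0
  have hεq : 0 < ε * q := mul_pos hε hq
  have hI : (univ.erase (c (m - 1)) : Finset (Fin m)) = (range (m - 1)).image c := by
    have hinj := R.inj
    have h1 : (range (m - 1)).image c ⊆ univ.erase (c (m - 1)) := by
      intro j hj
      obtain ⟨l, hl, rfl⟩ := mem_image.1 hj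
      have hl' := mem_range.1 hl
      refine mem_erase.2 ⟨fun h2 => ?_, mem_univ _⟩
      have := hinj (show l ∈ Set.Iio m from Set.mem_Iio.2 (by omega))
        (show m - 1 ∈ Set.Iio m from Set.mem_Iio.2 (by omega)) h2
      omega
    refine (Finset.eq_of_subset_of_card_le h1 ?_).symm
    rw [card_erase_of_mem (mem_univ _), card_univ, Fintype.card_fin,
      card_image_of_injOn, card_range]
    intro a ha b hb hab
    have ha' := mem_range.1 (mem_coe.1 ha)
    have hb' := mem_range.1 (mem_coe.1 hb)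
    exact hinj (Set.mem_Iio.2 (by omega)) (Set.mem_Iio.2 (by omega)) hab
  rw [← hI]
  refine Pool.OWN68.rawN_of R.tmc R.rate (δ := ε * q) (by linarith) (by linarith) (fun z hz0 hzy => ?_)
    hεq.le (by linarith)
  have h1 := R.row (L (m - 1) t t - x + z) (L (m - 1) t t - x + y) (by
    rw [abs_le]
    constructor <;> linarith) (by
    rw [abs_le]
    constructor <;> linarith) (by linarith)
  have e1 : L (m - 1) t t - x + y - (L (m - 1) t t - x + z) = y - z := by ring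
  rw [e1] at h1
  exact h1

end

end Pool.W.PKG
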