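import Pool.Agent.H92.D2.Rwc
import Pool.Agent.H31.W1.H80.GEN.Chn
import Pool.Agent.H57.W1.H91.D2.Tlc3

/-!
# The rows of the own height in the four windows, one law

`row_wd`: the rows of the height of the target over the closed chart of the window, given the code of
the tube, the position in the tube and the time, from the rows of the coordinate given the exact
point of the base, and from the fullness of the base given the closed record of the ball. The natural
digits of the coordinates of the base may be different.
-/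

set_option autoImplicit false

namespace Pool.W.V1E

open Pool.V1E

open Finset Real MvPolynomial
open Pool.KA Pool.KSAT Pool.PB Pool.GEN Pool.D2R Pool.D2G30 Pool.ISO Pool.CHT Pool.CHX
open Pool.PB.Trl (rt rt_mem t_rt)
open Pool.Agent.H49.Ent Pool.Agent.H32.Dense Pool.STK Pool.K2S Pool.LA91 Pool.OWN68

theorem chok_take {m J : ℕ} {F : Pool.KA.Fam m J} {c : ℕ → Fin m} {r r' : ℕ} {K : ℕ → ℕ} {a w e : ℕ}
    {g : ℕ → ℕ} {A : F.Ω → Prop} {G : Pool.GEN.PtT F → ℕ → MvPolynomial (Option (Fin m)) ℝ}
    {H : Pool.GEN.LnT F → ℕ → MvPolynomial (Option (Fin m)) ℝ} (h : Pool.W.GEN.ChOK F c r K a w e g A G H)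
    (hr : r' ≤ r) : Pool.W.GEN.ChOK F c r' K a w e g A G H :=
  ⟨h.degG, h.degH, h.depG, h.depH, fun ω hω i hi => h.pos ω hω i (hi.trans_le hr),
    fun ω hω i hi => h.agr ω hω i (hi.trans_le hr), fun ω hω i hi => h.lip ω hω i (hi.trans_le hr)⟩


end Pool.W.V1E
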