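import Pool.Agent.H92.D2.Him
import Pool.Agent.H31.W.H23.D2.Bwj
import Pool.Agent.H31.W.H92.D2.Rwc
import Pool.Agent.H31.W1.H2.GEN.EvS
import Pool.Agent.H31.W1.H91.D2.Tlc4
import Pool.Agent.H31.W1.H91.D2.TlcA

/-!
# The hypothesis `HIm` of the end

`TlW`: the entropy fields of `TL` at four windows, in a class. `NhW`: the velocities are in no
hyperplane of the record. `him_cls`: with the rows of the target not full, the labels of the tubes at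
the precision of the balls exist on all the events with the windows `WW`.
-/

set_option autoImplicit false

namespace Pool.W.V1E

open Pool.V1E

open Finset Real MvPolynomial
open Pool.KA Pool.KSAT Pool.PB Pool.GEN Pool.D2R Pool.D2G30 Pool.ISO Pool.CHT Pool.CHX
open Pool.PB.Trl (rt rt_mem t_rt)
open Pool.Agent.H49.Ent Pool.Agent.H32.Dense Pool.STK Pool.K2S Pool.LA91 Pool.OWN68
open Pool.UNJ (ceI)
open Pool.S6C Pool.RCD Pool.D2Con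

variable {m : ℕ}

/-- **The entropy fields of `TL`** at the windows `b ≤ w ≤ a ≤ oo`, in a class. `fr`: the precision
of the frame. -/
def TlW (S : Pool.PB.PCl m) (c : ℕ → Fin m) (d : ℕ) (nt : ℕ → ℝ) (P₁ P₂ : Fin d → ℝ)
    (b w a oo : ℝ) (fr : ℕ → ℝ) (hT κT : ℝ) : Prop :=
  ∃ k₂ : ℝ, 0 < k₂ ∧ ∀ D : ℕ, ∃ C₁ : ℕ, Pool.S6C.Bas S (fun J F A =>
    ∀ (s gx : ℕ → ℕ) (e M Q n : ℕ) (qe : Fin d → ℕ) (V V' : Type) (v : F.Ω → V)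
      (vL : Pool.GEN.LnT F → V) (v' : F.Ω → V')
      (G₀ : Pool.GEN.PtT F → ℕ → MvPolynomial (Option (Fin m)) ℝ)
      (G₁ G₂ : Pool.GEN.PtT F → MvPolynomial (Option (Fin m)) ℝ)
      (H₀ : Pool.GEN.LnT F → ℕ → MvPolynomial (Option (Fin m)) ℝ)
      (H₁ H₂ : Pool.GEN.LnT F → MvPolynomial (Option (Fin m)) ℝ) (δ : ℝ),
    Pool.LA91.Mx (fun J F => Pool.PB.ptr F J) (Pool.RCD.vg w) k₂ F A v → Pool.LA91.Mx (fun J F => Pool.PB.ptr F J) (Pool.RCD.vg a) k₂ F A v' →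
    Pool.LA91.TlM J d C₁ (hT * J) nt P₁ P₂ w a oo s gx e M Q n qe →
    (∀ i < d, fr i * J ≤ gx i) →
    Pool.W.LA91.TlI F A c d D e M gx ⌊b * J⌋₊ ⌊w * J⌋₊ ⌊a * J⌋₊ v vL v' G₀ G₁ G₂ H₀ H₁ H₂ →
    Pool.LA91.TlS F A c s d ⌊w * J⌋₊ Q n qe G₀ δ →
    Pool.LA91.TlO F (Pool.Agent.H49.Ent.cond F.p A True) c s d ⌊b * J⌋₊ ⌊w * J⌋₊ Q n qe v vL v'
      G₀ G₁ G₂ H₀ H₁ (κT * J))


/-- `TlW` from 91's `TlAt`. -/
theorem TlW.of_at {S : Pool.PB.PCl m} {c : ℕ → Fin m} {d : ℕ} {sn : ℕ → ℝ → ℝ} {G : Set ℝ} {g : ℝ}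
    {C : ℕ} {σ : ℚ} {κ : ℝ} {k : ℕ} (h : Pool.W.LA91.TlAt S c d sn G g C σ κ k) {P₁ P₂ : Fin d → ℚ}
    {b w a oo : ℝ} (h1 : Pool.LA91.StG d sn g C σ k P₁) (h2 : Pool.LA91.StG d sn g C σ k P₂) (hb : b ∈ G)
    (hgb : g - C * (1 / 2) ^ k ≤ b) (hbw : b + Pool.LA91.lagG C d k ≤ w) (hwa : w ≤ a) (hao : a ≤ oo)
    (hog : oo + (1 / 2) ^ k ≤ g + Pool.LA91.lstG C d k) :
    Pool.W.V1E.TlW S c d (fun i => sn i g - g) (fun i => (P₁ i : ℝ)) (fun i => (P₂ i : ℝ)) b w a oo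
      (fun i => sn i b - Pool.LA91.slT d σ κ * (1 / 2) ^ k) (Pool.LA91.epT d σ κ * (1 / 2) ^ k)
      (κ * (1 / 2) ^ k) := h P₁ P₂ b w a oo h1 h2 hb hgb hbw hwa hao hog


end Pool.W.V1E
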