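import Pool.Agent.H92.D2.Nwa
import Pool.Agent.H31.W.H73.D2.Tmg
import Pool.Agent.H3.W.Nlp
import Pool.Agent.H31.W1.H80.GEN.Chn

/-!
# The end for the target `N - P(p, u)`: tube, boxes

`F_tube`: the heights of a frame in the tube. `NwE`: `NwD` and the closed charts of the ball, the
re-centred frame. `nw_lip`: the gradients of the closed charts of the window on the boxes of the frame.
-/

set_option autoImplicit false

namespace Pool.W.V1E

open Pool.V1E

open Finset Real MvPolynomial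
open Pool.KA Pool.KSAT Pool.PB Pool.GEN Pool.D2R Pool.D2G30 Pool.ISO Pool.CHT Pool.CHX
open Pool.PB.Trl (rt rt_mem t_rt)
open Pool.K2S (Sub)


section structs

/-- **`NwD` with the closed charts of the ball and the re-centred frame.** -/
structure NwE {m J : ℕ} (F : Pool.KA.Fam m J) (c : ℕ → Fin m) (r D n M ar MB q₀ Q x p e su : ℕ)
    (s : ℕ → ℕ) (qe : Fin r → ℕ) (o : ℕ → ℕ) (z g gc gT g₀ : ℕ → ℕ → ℕ) (B : F.Ω → Prop)
    (G T : ℕ → Pool.GEN.PtT F → ℕ → MvPolynomial (Option (Fin m)) ℝ)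
    (H TH : ℕ → Pool.GEN.LnT F → ℕ → MvPolynomial (Option (Fin m)) ℝ)
    (Ht CL : Pool.GEN.LnT F → MvPolynomial (Option (Fin m)) ℝ)
    (Cp : Pool.GEN.PtT F → MvPolynomial (Option (Fin m)) ℝ) : Prop extends
    Pool.W.V1E.NwD F c r D n M ar MB q₀ Q x p e su s qe o z g gc gT g₀ B G T H TH Ht CL Cp where
  cl2 : ∀ ω, B ω → ∀ l ≤ r + 1, G 2 (Pool.PB.ptr F J ω) l = H 2 (Pool.KSAT.slam F (o 2) ω) l
  rad0 : Pool.W.GEN.ChOK F c r (fun _ => D) (o 2) (o 0) e (fun l => g 0 l + (o 2 - o 0)) B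
    (fun y l => Pool.GEN.Gno (c l) J J (fun y => G 0 y l) y) (fun s l => Pool.GEN.Hno (c l) (fun s => H 0 s l) s)
  z01 : ∃ q ≤ M, z 0 q = o 1 - o 0

end structs

/-- **The gradients of the closed charts of the window** on the boxes of the frame of the ball. -/
theorem nw_lip (D r : ℕ) : ∃ C : ℕ, ∀ {m J : ℕ} {F : Pool.KA.Fam m J} {c : ℕ → Fin m}
    {n M ar MB q₀ Q x p e su : ℕ} {s : ℕ → ℕ} {qe : Fin r → ℕ} {o : ℕ → ℕ}
    {z g gc gT g₀ : ℕ → ℕ → ℕ} {B : F.Ω → Prop}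
    {G T : ℕ → Pool.GEN.PtT F → ℕ → MvPolynomial (Option (Fin m)) ℝ}
    {H TH : ℕ → Pool.GEN.LnT F → ℕ → MvPolynomial (Option (Fin m)) ℝ}
    {Ht CL : Pool.GEN.LnT F → MvPolynomial (Option (Fin m)) ℝ}
    {Cp : Pool.GEN.PtT F → MvPolynomial (Option (Fin m)) ℝ},
    Pool.W.V1E.NwE F c r D n M ar MB q₀ Q x p e su s qe o z g gc gT g₀ B G T H TH Ht CL Cp → 4 * x ≤ Q →
    ∀ ω, B ω →
    (∀ b, Pool.GEN.NBx c (fun l => Pool.GEN.Gno (c l) J J (fun y => G 0 y l) (Pool.PB.ptr F J ω))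
        (fun l => g 0 l + (o 2 - o 0)) (o 2) (F.t ω) r b →
      (∀ l < r, |b (some (c l)) - eval b (G 1 (Pool.PB.ptr F J ω) l)| ≤
        2 ^ (C * (x + 1)) / 2 ^ g₀ 1 l) ∧
      ∀ l < r, |eval b (pderiv (some (c l)) (G 1 (Pool.PB.ptr F J ω) r))| ≤
        2 ^ (C * (x + 1)) * 2 ^ (e + Pool.W.GEN.nlp (g₀ 1) l r)) ∧
    ∀ b, Pool.GEN.NBx c (fun j => if j < r then Pool.GEN.Gno (c j) J J (fun y => G 0 y j) (Pool.PB.ptr F J ω) else
          G 1 (Pool.PB.ptr F J ω) r)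
        (fun j => if j < r then g 0 j + (o 2 - o 0) else g₀ 1 r) (o 2) (F.t ω) (r + 1) b →
      ∀ l < r + 1, |eval b (pderiv (some (c l)) (G 1 (Pool.PB.ptr F J ω) (r + 1)))| ≤
        2 ^ (C * (x + 1)) * 2 ^ (e + Pool.W.GEN.nlp (g₀ 1) l (r + 1)) := by
  obtain ⟨C₁, hf1⟩ := Pool.V1E.frm_box D r
  obtain ⟨C₂, hf2⟩ := Pool.V1E.frm_box D (r + 1)
  obtain ⟨C₃, hbs⟩ := Pool.ISO.box_swap D (r + 1)
  refine ⟨4 * (C₁ + C₂ + C₃), ?_⟩
  intro m J F c n M ar MB q₀ Q x p e su s qe o z g gc gT g₀ B G T H TH Ht CL Cp W hxQ ω hω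
  have h01 : o 0 ≤ o 1 := by have := W.o1; omega
  have h12 : o 1 ≤ o 2 := by have := W.o2; omega
  obtain ⟨q, hq, hz⟩ := W.z01
  have h4 : ∀ i : ℕ, Pool.GEN.DepC c i (Pool.GEN.Gno (c i) J J (fun y => G 0 y i) (Pool.PB.ptr F J ω)) := fun i =>
    W.rad0.depG (Pool.PB.ptr F J ω) i
  have hgl : ∀ l < r, g₀ 1 l ≤ g 0 l + (o 2 - o 0) := fun i hi => by
    have := W.n1d i hi
    have := W.n2b i hi
    have := W.n2c i hi
    omega
  have hpw : ∀ {k : ℕ}, k ≤ 4 * (C₁ + C₂ + C₃) * (x + 1) →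
      (2 : ℝ) ^ k ≤ 2 ^ (4 * (C₁ + C₂ + C₃) * (x + 1)) := fun h =>
    pow_le_pow_right₀ (by norm_num) h
  have hnear : ∀ i < r, ∀ b', Pool.GEN.NBx c (G 1 (Pool.PB.ptr F J ω)) (g₀ 1) (o 1) (F.t ω) i b' →
      |eval b' (Pool.GEN.Gno (c i) J J (fun y => G 0 y i) (Pool.PB.ptr F J ω)) -
        eval b' (G 1 (Pool.PB.ptr F J ω) i)| ≤ 2 ^ (4 * x) / 2 ^ g₀ 1 i := fun i hi b' hb' => by
    refine (W.bal.bal 0 (by have := W.n3; omega) 1 (by have := W.n3; omega) q hq h01 hz ω hω i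
      (by omega) b' hb').trans ?_
    rw [div_le_div_iff₀ (by positivity) (by positivity), ← pow_add, ← pow_add]
    refine pow_le_pow_right₀ (by norm_num) ?_
    have := W.n1d i hi
    have := W.n2b i hi
    have := W.n2c i hi
    have := W.o1
    have := W.o2
    omega
  refine ⟨fun b hb => ?_, fun b hb l hl => ?_⟩
  · have hb1 : Pool.GEN.NBx c (fun l => Pool.GEN.Gno (c l) J J (fun y => G 0 y l) (Pool.PB.ptr F J ω)) (g₀ 1) (o 1)
        (F.t ω) r b := ⟨hb.1.trans (one_div_le_one_div_of_le (by positivity)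
      (pow_le_pow_right₀ (by norm_num) h12)), fun i hi => (hb.2 i hi).trans
      (one_div_le_one_div_of_le (by positivity) (pow_le_pow_right₀ (by norm_num) (hgl i hi)))⟩
    refine ⟨fun l hl => ?_, fun l hl => ?_⟩
    · refine (hbs (c := c) (i := r) (p := 4 * x + 1) (q := 0) (a := o 1) (t := F.t ω)
        (G := G 1 (Pool.PB.ptr F J ω)) (G' := fun l => Pool.GEN.Gno (c l) J J (fun y => G 0 y l) (Pool.PB.ptr F J ω))
        (g := g₀ 1) (g' := g₀ 1) (Nat.lt_succ_self r) W.hcr (fun i => W.dG 1 _ i)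
        (fun i => W.pG 1 _ i) (fun i => W.rad0.degG (Pool.PB.ptr F J ω) i) h4 (fun i _ => le_rfl)
        (fun b' hb' j hj => ?_) b hb1 l hl).trans ?_
      · have e1 := hb'.2 j hj
        have e2 := hnear j hj b' (hb'.mono le_rfl hj.le)
        have e3 : b' (some (c j)) - eval b' (Pool.GEN.Gno (c j) J J (fun y => G 0 y j) (Pool.PB.ptr F J ω)) =
            (b' (some (c j)) - eval b' (G 1 (Pool.PB.ptr F J ω) j)) -
            (eval b' (Pool.GEN.Gno (c j) J J (fun y => G 0 y j) (Pool.PB.ptr F J ω)) -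
              eval b' (G 1 (Pool.PB.ptr F J ω) j)) := by ring
        show |b' (some (c j)) - eval b' (Pool.GEN.Gno (c j) J J (fun y => G 0 y j) (Pool.PB.ptr F J ω))| ≤ _
        rw [e3]
        refine (abs_sub _ _).trans ((add_le_add e1 e2).trans ?_)
        rw [← add_div]
        refine div_le_div_of_nonneg_right ?_ (by positivity)
        have h7 : (1 : ℝ) ≤ 2 ^ (4 * x) := one_le_pow₀ (by norm_num)
        rw [pow_succ]
        linarith
      · exact div_le_div_of_nonneg_right (hpw (by nlinarith)) (by positivity)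
    · have h1 := hf1 (c := c) (a := o 1) (p := 4 * x) (q := 0) (t := F.t ω)
        (Gb := G 1 (Pool.PB.ptr F J ω)) (ψ := fun l => Pool.GEN.Gno (c l) J J (fun y => G 0 y l) (Pool.PB.ptr F J ω))
        (gb := g₀ 1) (g' := g₀ 1) (R := pderiv (some (c l)) (G 1 (Pool.PB.ptr F J ω) r))
        (M := 2 ^ (e + Pool.W.GEN.nlp (g₀ 1) l r)) W.hcr (fun i => W.dG 1 _ i) (fun i => W.pG 1 _ i)
        (fun i => W.rad0.degG (Pool.PB.ptr F J ω) i) h4 ((W.pG 1 _ r).pderiv l)
        ((Pool.V1E.pd_deg _ _).trans (W.dG 1 _ r)) (by positivity) (fun i _ => le_rfl)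
        (fun i _ => le_rfl) (fun i hi b' hb' => hnear i hi b' hb')
        (fun b' hb' => W.ch1.lip ω hω r (by omega) b' hb' l hl) b hb1
      exact h1.trans (mul_le_mul_of_nonneg_right (hpw (by nlinarith)) (by positivity))
  · have h1 := hf2 (c := c) (a := o 1) (p := 4 * x) (q := 0) (t := F.t ω)
      (Gb := G 1 (Pool.PB.ptr F J ω)) (ψ := fun j => if j < r then
        Pool.GEN.Gno (c j) J J (fun y => G 0 y j) (Pool.PB.ptr F J ω) else G 1 (Pool.PB.ptr F J ω) r)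
      (gb := g₀ 1) (g' := g₀ 1) (R := pderiv (some (c l)) (G 1 (Pool.PB.ptr F J ω) (r + 1)))
      (M := 2 ^ (e + Pool.W.GEN.nlp (g₀ 1) l (r + 1))) W.hc1 (fun i => W.dG 1 _ i) (fun i => W.pG 1 _ i)
      (fun i => by
        split_ifs
        · exact W.rad0.degG (Pool.PB.ptr F J ω) i
        · exact W.dG 1 _ r)
      (fun i => by
        split_ifs with h
        · exact h4 i
        · exact (W.pG 1 _ r).mono (by omega))
      ((W.pG 1 _ (r + 1)).pderiv l)
      ((Pool.V1E.pd_deg _ _).trans (W.dG 1 _ (r + 1))) (by positivity) (fun i _ => le_rfl)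
      (fun i _ => le_rfl) (fun i hi b' hb' => by
        split_ifs with h
        · exact hnear i h b' hb'
        · have hir : i = r := by omega
          rw [hir, sub_self, abs_zero]
          positivity)
      (fun b' hb' => W.ch1.lip ω hω (r + 1) (by omega) b' hb' l hl) b
      ⟨hb.1.trans (one_div_le_one_div_of_le (by positivity)
        (pow_le_pow_right₀ (by norm_num) h12)), fun i hi => (hb.2 i hi).trans
        (one_div_le_one_div_of_le (by positivity) (pow_le_pow_right₀ (by norm_num) (by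
          beta_reduce
          split_ifs with h
          · exact hgl i h
          · have hir : i = r := by omega
            rw [hir])))⟩
    exact h1.trans (mul_le_mul_of_nonneg_right (hpw (by nlinarith)) (by positivity))

end Pool.W.V1E
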