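import Pool.Agent.H92.D2.Nwe
import Pool.Agent.H31.W.H73.D2.Tml

/-!
# The paths are straight, for a frame

`fr_tls`: the structure `TlS` from `FrD`. `WN.res`: smaller events.
-/

set_option autoImplicit false

namespace Pool.W.V1E

open Pool.V1E

open Finset Real MvPolynomial
open Pool.KA Pool.KSAT Pool.PB Pool.GEN Pool.D2R Pool.D2G30 Pool.ISO Pool.CHT Pool.CHX
open Pool.PB.Trl (rt rt_mem t_rt)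
open Pool.Agent.H49.Ent Pool.Agent.H32.Dense Pool.STK Pool.K2S Pool.LA91 Pool.OWN68
open Pool.UNJ (ceI)
open Pool.S6C Pool.RCD Pool.D2Con


/-- Smaller events. -/
theorem WN.res {m : ℕ} {c : ℕ → Fin m} {r D Dw Dr N N₂ : ℕ} {R : ℕ → Prop}
    {C a Eb ε₀ η₀ χ mb : ℝ}
    {Pt : ℝ → ℝ → ℝ} {o : ℕ → ℝ} {lv be : ℕ → ℕ → ℝ} {J : ℕ} {F : Pool.KA.Fam m J} {b : ℕ → ℕ → ℝ} {κ : ℝ}
    {z : ℕ → ℕ → ℕ} {qe : Fin r → ℕ} {B : F.Ω → Prop} {gc gT g₀ : ℕ → ℕ → ℕ}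
    {G : ℕ → Pool.GEN.PtT F → ℕ → MvPolynomial (Option (Fin m)) ℝ}
    {H : ℕ → Pool.GEN.LnT F → ℕ → MvPolynomial (Option (Fin m)) ℝ}
    {T : ℕ → Pool.GEN.PtT F → ℕ → MvPolynomial (Option (Fin m)) ℝ}
    {TH : ℕ → Pool.GEN.LnT F → ℕ → MvPolynomial (Option (Fin m)) ℝ}
    {Gt : ℕ → Pool.GEN.PtT F → MvPolynomial (Option (Fin m)) ℝ}
    {Ht : ℕ → Pool.GEN.LnT F → MvPolynomial (Option (Fin m)) ℝ}
    {CL : Pool.GEN.LnT F → MvPolynomial (Option (Fin m)) ℝ} {Cp : Pool.GEN.PtT F → MvPolynomial (Option (Fin m)) ℝ}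
    (W : Pool.W.V1E.WN c r D Dw Dr N N₂ R C a Eb ε₀ η₀ χ mb Pt o lv be F b κ z qe B gc gT g₀ G H T TH Gt Ht
      CL Cp) {B' : F.Ω → Prop} {κ₁ κ₂ : ℝ} (hB : Pool.K2S.Sub B' B) (hP : κ₁ * Pool.K2S.Pe F.p B ≤ Pool.K2S.Pe F.p B')
    (h2 : 0 ≤ κ₂) (hκ : κ ≤ κ₂ * κ₁) :
    Pool.W.V1E.WN c r D Dw Dr N N₂ R C a Eb ε₀ η₀ χ mb Pt o lv be F b κ₂ z qe B' gc gT g₀ G H T TH Gt Ht
      CL Cp :=
  ⟨W.n1, W.n3, W.DD, W.wg.res hB hP h2 hκ, W.nw.toNvP.sub hB, W.nw.toNwC.mono hB le_rfl le_rfl⟩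

end Pool.W.V1E
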